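import Pool.Agent.Lib.H4TR.Hall
import Pool.Agent.Lib.H98M.ME

/-!
# H4TR, file Sym: plane bipartite spanning trees in a crossing relation on the pairs of vertices

`cross` is a crossing relation on `Sym2 V` for which (Z) holds (`H98Z.HZ`), `A`, `B` are disjoint nonempty
vertex sets.
* `flow_of_hz`: for positive integers `r a`, `s b` with equal sums there is a plane spanning tree of the
  complete bipartite graph on `A`, `B` which carries an integral flow with these sums.
* `degrees_of_hz`: for positive integers `d a`, `a ∈ A`, with `∑ (d a - 1) = |B| - 1` there is a plane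
  spanning tree of the complete bipartite graph on `A`, `B` in which each `a ∈ A` has degree `d a`.
* `matching_of_hz`: if `|A| = |B|` there is a plane spanning tree of the complete bipartite graph on `A`, `B`
  which contains a perfect matching.
* `flow_of_hc`, `degrees_of_hc`, `matching_of_hc`, `flow_of_he`, `degrees_of_he`: the same from `Geo` and `HC`
  or `HE`; `isTree`: the tree as a `SimpleGraph`.
-/

set_option autoImplicit false
set_option linter.unusedSectionVars false

namespace H4TR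

open Finset H98P H98Z H98M

variable {V : Type*} [Fintype V] [DecidableEq V]

/-- `T` is a plane spanning tree of the complete bipartite graph with the sides `A` and `B`: a plane set
of `|A| + |B| - 1` edges between `A` and `B` which is connected. -/
structure PTree (cross : Sym2 V → Sym2 V → Prop) (A B : Finset V) (T : Finset (Sym2 V)) : Prop where
  sub : ∀ e ∈ T, ∃ a ∈ A, ∃ b ∈ B, e = s(a, b)
  plane : ∀ e ∈ T, ∀ f ∈ T, ¬ cross e f
  card : T.card + 1 = A.card + B.card
  conn : ¬ Disc (A ∪ B) T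

/-- the inclusion of the product of two disjoint sets -/
def emb {A B : Finset V} (hAB : Disjoint A B) : A × B ↪ Sym2 V where
  toFun p := s(p.1.1, p.2.1)
  inj' := by
    rintro ⟨⟨a, ha⟩, ⟨b, hb⟩⟩ ⟨⟨a', ha'⟩, ⟨b', hb'⟩⟩ h1
    rw [Sym2.eq_iff] at h1
    rcases h1 with ⟨h2, h3⟩ | ⟨h2, h3⟩
    · simp only at h2 h3
      subst h2 h3
      rfl
    · simp only at h2 h3
      subst h2 h3
      exact absurd hb' (disjoint_left.1 hAB ha)

theorem emb_apply {A B : Finset V} (hAB : Disjoint A B) (p : A × B) :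
    emb hAB p = s(p.1.1, p.2.1) := rfl

/-- The complexes of the plane subsets of the products are acyclic. -/
theorem acyc_of_hz {cross : Sym2 V → Sym2 V → Prop} (hsymm : ∀ e f, cross e f → cross f e)
    (hZ : ∀ W : Finset V, HZ cross W) {A B : Finset V} (hAB : Disjoint A B) :
    H24B.Acyc (fun p q : A × B => cross s(p.1.1, p.2.1) s(q.1.1, q.2.1)) := by
  classical
  intro A' B' hA' hB'
  have h1 : Disjoint (A'.map (Function.Embedding.subtype _))
      (B'.map (Function.Embedding.subtype _)) := by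
    rw [disjoint_left]
    intro x hx hy
    obtain ⟨a, _, rfl⟩ := mem_map.1 hx
    obtain ⟨b, _, hb⟩ := mem_map.1 hy
    have h2 : (b : V) = a := hb
    exact disjoint_left.1 hAB a.2 (h2 ▸ b.2)
  have h2 := acy_br hsymm h1 (hA'.map) (hB'.map) (hZ _)
  have h3 : (A' ×ˢ B').map (emb hAB) =
      br (A'.map (Function.Embedding.subtype _)) (B'.map (Function.Embedding.subtype _)) := by
    ext e
    rw [mem_map, mem_br]
    constructor
    · rintro ⟨⟨a, b⟩, hp, rfl⟩
      rw [mem_product] at hp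
      exact ⟨a.1, mem_map_of_mem _ hp.1, b.1, mem_map_of_mem _ hp.2, rfl⟩
    · rintro ⟨x, hx, y, hy, rfl⟩
      obtain ⟨a, ha, rfl⟩ := mem_map.1 hx
      obtain ⟨b, hb, rfl⟩ := mem_map.1 hy
      exact ⟨(a, b), mem_product.2 ⟨ha, hb⟩, rfl⟩
  rw [← h3] at h2
  exact acy_transport (emb hAB) h2

/-- The tree of the connected plane set `σ`. -/
theorem ptree_of_conn {cross : Sym2 V → Sym2 V → Prop} {A B : Finset V} (hAB : Disjoint A B)
    {σ : Finset (A × B)}
    (hpl : Plane (fun p q : A × B => cross s(p.1.1, p.2.1) s(q.1.1, q.2.1)) σ)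
    (hcard : σ.card + 1 = Fintype.card A + Fintype.card B) (hconn : Conn σ) :
    PTree cross A B (σ.map (emb hAB)) := by
  classical
  refine ⟨?_, ?_, ?_, ?_⟩
  · intro e he
    obtain ⟨p, _, rfl⟩ := mem_map.1 he
    exact ⟨p.1.1, p.1.2, p.2.1, p.2.2, rfl⟩
  · intro e he f hf
    obtain ⟨p, hp, rfl⟩ := mem_map.1 he
    obtain ⟨q, hq, rfl⟩ := mem_map.1 hf
    exact hpl p hp q hq
  · rw [card_map, hcard, Fintype.card_coe, Fintype.card_coe]
  · rintro ⟨C, D, hC, hD, hCD, hU, hno⟩
    obtain ⟨e, he, h1⟩ := hconn (univ.filter fun a : A => a.1 ∈ C) (univ.filter fun b : B => b.1 ∈ C)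
      (by
        obtain ⟨x, hx⟩ := hC
        have h2 : x ∈ A ∪ B := by
          rw [← hU]
          exact mem_union_left _ hx
        rcases mem_union.1 h2 with h3 | h3
        · exact Or.inl ⟨⟨x, h3⟩, mem_filter.2 ⟨mem_univ _, hx⟩⟩
        · exact Or.inr ⟨⟨x, h3⟩, mem_filter.2 ⟨mem_univ _, hx⟩⟩)
      (by
        obtain ⟨x, hx⟩ := hD
        have h2 : x ∈ A ∪ B := by
          rw [← hU]
          exact mem_union_right _ hx
        rcases mem_union.1 h2 with h3 | h3
        · left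
          intro h4
          have h5 : (⟨x, h3⟩ : A) ∈ univ.filter fun a : A => a.1 ∈ C := by
            rw [h4]
            exact mem_univ _
          exact disjoint_left.1 hCD (mem_filter.1 h5).2 hx
        · right
          intro h4
          have h5 : (⟨x, h3⟩ : B) ∈ univ.filter fun b : B => b.1 ∈ C := by
            rw [h4]
            exact mem_univ _
          exact disjoint_left.1 hCD (mem_filter.1 h5).2 hx)
    apply h1
    have hin : ∀ x, x ∈ A ∪ B → x ∉ C → x ∈ D := by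
      intro x hx hxC
      rw [← hU] at hx
      exact (mem_union.1 hx).resolve_left hxC
    have hmem : s(e.1.1, e.2.1) ∈ σ.map (emb hAB) := mem_map_of_mem (emb hAB) he
    rw [mem_filter, mem_filter]
    constructor
    · rintro ⟨_, h2⟩
      refine ⟨mem_univ _, ?_⟩
      by_contra h3
      exact hno _ h2 _ (hin _ (mem_union_right _ e.2.2) h3) hmem
    · rintro ⟨_, h2⟩
      refine ⟨mem_univ _, ?_⟩
      by_contra h3
      refine hno _ h2 _ (hin _ (mem_union_left _ e.1.2) h3) ?_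
      rw [Sym2.eq_swap]
      exact hmem

/-- INTEGRAL FLOWS IN PLANE BIPARTITE SPANNING TREES. -/
theorem flow_of_hz {cross : Sym2 V → Sym2 V → Prop} (hsymm : ∀ e f, cross e f → cross f e)
    (hadj : ∀ a b c, ¬ cross s(a, b) s(a, c)) (hZ : ∀ W : Finset V, HZ cross W)
    {A B : Finset V} (hAB : Disjoint A B) (hA : A.Nonempty) (hB : B.Nonempty) (r s : V → ℕ)
    (hr : ∀ a ∈ A, 0 < r a) (hs : ∀ b ∈ B, 0 < s b) (h : ∑ a ∈ A, r a = ∑ b ∈ B, s b) :
    ∃ T : Finset (Sym2 V), PTree cross A B T ∧ ∃ n : V → V → ℕ,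
      (∀ a ∈ A, ∑ b ∈ B, n a b = r a) ∧ (∀ b ∈ B, ∑ a ∈ A, n a b = s b) ∧
      ∀ a ∈ A, ∀ b ∈ B, n a b ≠ 0 → s(a, b) ∈ T := by
  classical
  have : Nonempty A := hA.to_subtype
  have : Nonempty B := hB.to_subtype
  have hsum : ∑ a : A, r a.1 = ∑ b : B, s b.1 := by
    rw [Finset.sum_coe_sort A r, Finset.sum_coe_sort B s]
    exact h
  obtain ⟨σ, hpl, hcard, hconn, f, hf⟩ := transport (α := A) (β := B)
    (cross := fun p q => cross s(p.1.1, p.2.1) s(q.1.1, q.2.1))
    (fun a b b' => hadj _ _ _) (fun a a' b hx => by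
      apply hadj b.1 a.1 a'.1
      rw [Sym2.eq_swap (a := b.1) (b := a.1), Sym2.eq_swap (a := b.1) (b := a'.1)]
      exact hx) (acyc_of_hz hsymm hZ hAB) (fun a => r a.1) (fun b => s b.1)
    (fun a => hr a.1 a.2) (fun b => hs b.1 b.2) hsum
  refine ⟨σ.map (emb hAB), ptree_of_conn hAB hpl hcard hconn, fun a b =>
    (univ.filter fun p : (Σ a : A, Fin (r a.1)) => p.1.1 = a ∧ (f p).1.1 = b).card, ?_, ?_, ?_⟩
  · intro a ha
    have h1 : (univ.filter fun p : (Σ a : A, Fin (r a.1)) => p.1.1 = a).card = r a := by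
      have h2 : (univ.filter fun p : (Σ a : A, Fin (r a.1)) => p.1.1 = a) =
          ({⟨a, ha⟩} : Finset A).sigma fun a => (univ : Finset (Fin (r a.1))) := by
        ext p
        rw [mem_filter, mem_sigma, mem_singleton]
        constructor
        · rintro ⟨_, h3⟩
          exact ⟨Subtype.ext h3, mem_univ _⟩
        · rintro ⟨h3, _⟩
          refine ⟨mem_univ _, ?_⟩
          rw [h3]
      rw [h2, card_sigma, sum_singleton, card_univ, Fintype.card_fin]
    rw [← h1]
    have h2 := Finset.card_eq_sum_card_fiberwise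
      (s := univ.filter fun p : (Σ a : A, Fin (r a.1)) => p.1.1 = a) (t := B)
      (f := fun p => (f p).1.1) fun p _ => Finset.mem_coe.2 (f p).1.2
    rw [h2]
    refine sum_congr rfl fun b _ => ?_
    rw [filter_filter]
  · intro b hb
    have h1 : (univ.filter fun q : (Σ b : B, Fin (s b.1)) => q.1.1 = b).card = s b := by
      have h2 : (univ.filter fun q : (Σ b : B, Fin (s b.1)) => q.1.1 = b) =
          ({⟨b, hb⟩} : Finset B).sigma fun b => (univ : Finset (Fin (s b.1))) := by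
        ext p
        rw [mem_filter, mem_sigma, mem_singleton]
        constructor
        · rintro ⟨_, h3⟩
          exact ⟨Subtype.ext h3, mem_univ _⟩
        · rintro ⟨h3, _⟩
          refine ⟨mem_univ _, ?_⟩
          rw [h3]
      rw [h2, card_sigma, sum_singleton, card_univ, Fintype.card_fin]
    have h3 : (univ.filter fun p : (Σ a : A, Fin (r a.1)) => (f p).1.1 = b).card = s b := by
      rw [← h1]
      refine Finset.card_equiv f fun p => ?_
      rw [mem_filter, mem_filter]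
      exact ⟨fun h => ⟨mem_univ _, h.2⟩, fun h => ⟨mem_univ _, h.2⟩⟩
    rw [← h3]
    have h2 := Finset.card_eq_sum_card_fiberwise
      (s := univ.filter fun p : (Σ a : A, Fin (r a.1)) => (f p).1.1 = b) (t := A)
      (f := fun p => p.1.1) fun p _ => Finset.mem_coe.2 p.1.2
    rw [h2]
    refine sum_congr rfl fun a _ => ?_
    rw [filter_filter]
    refine congrArg Finset.card ?_
    ext p
    rw [mem_filter, mem_filter]
    exact ⟨fun h => ⟨h.1, h.2.2, h.2.1⟩, fun h => ⟨h.1, h.2.2, h.2.1⟩⟩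
  · intro a ha b hb h1
    obtain ⟨p, hp⟩ := card_ne_zero.1 h1
    rw [mem_filter] at hp
    obtain ⟨_, h2, h3⟩ := hp
    have h4 := mem_map_of_mem (emb hAB) (hf p)
    rw [emb_apply] at h4
    simp only at h4
    rw [h2, h3] at h4
    exact h4

/-- PRESCRIBED DEGREES ON ONE SIDE. -/
theorem degrees_of_hz {cross : Sym2 V → Sym2 V → Prop} (hsymm : ∀ e f, cross e f → cross f e)
    (hadj : ∀ a b c, ¬ cross s(a, b) s(a, c)) (hZ : ∀ W : Finset V, HZ cross W)
    {A B : Finset V} (hAB : Disjoint A B) (hA : A.Nonempty) (d : V → ℕ)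
    (hd : ∀ a ∈ A, 0 < d a) (h : ∑ a ∈ A, d a + 1 = A.card + B.card) :
    ∃ T : Finset (Sym2 V), PTree cross A B T ∧ ∀ a ∈ A, (T.filter fun e => a ∈ e).card = d a := by
  classical
  have : Nonempty A := hA.to_subtype
  have hsum : ∑ a : A, d a.1 + 1 = Fintype.card A + Fintype.card B := by
    rw [Finset.sum_coe_sort A d, Fintype.card_coe, Fintype.card_coe]
    exact h
  obtain ⟨σ, hpl, hcard, hconn, hdeg⟩ := one_sided (α := A) (β := B)
    (cross := fun p q => cross s(p.1.1, p.2.1) s(q.1.1, q.2.1))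
    (fun a b b' => hadj _ _ _) (fun a a' b hx => by
      apply hadj b.1 a.1 a'.1
      rw [Sym2.eq_swap (a := b.1) (b := a.1), Sym2.eq_swap (a := b.1) (b := a'.1)]
      exact hx) (acyc_of_hz hsymm hZ hAB) (fun a => d a.1) (fun a => hd a.1 a.2) hsum
  refine ⟨σ.map (emb hAB), ptree_of_conn hAB hpl hcard hconn, fun a ha => ?_⟩
  rw [filter_map, card_map, ← hdeg ⟨a, ha⟩]
  congr 1
  ext p
  rw [mem_filter, mem_filter]
  refine and_congr_right fun _ => ?_
  show a ∈ s(p.1.1, p.2.1) ↔ p.1 = ⟨a, ha⟩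
  rw [Sym2.mem_iff]
  constructor
  · rintro (h1 | h1)
    · exact Subtype.ext h1.symm
    · exact absurd p.2.2 (by rw [← h1]; exact disjoint_left.1 hAB ha)
  · intro h1
    left
    rw [h1]

/-- A PERFECT MATCHING INSIDE A PLANE BIPARTITE SPANNING TREE. -/
theorem matching_of_hz {cross : Sym2 V → Sym2 V → Prop} (hsymm : ∀ e f, cross e f → cross f e)
    (hadj : ∀ a b c, ¬ cross s(a, b) s(a, c)) (hZ : ∀ W : Finset V, HZ cross W)
    {A B : Finset V} (hAB : Disjoint A B) (hA : A.Nonempty) (h : A.card = B.card) :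
    ∃ T : Finset (Sym2 V), PTree cross A B T ∧ ∃ f : A ≃ B, ∀ a : A, s(a.1, (f a).1) ∈ T := by
  classical
  have hB : B.Nonempty := card_pos.1 (h ▸ card_pos.2 hA)
  have : Nonempty A := hA.to_subtype
  have : Nonempty B := hB.to_subtype
  obtain ⟨σ, hpl, hcard, hconn, f, hf⟩ := transport (α := A) (β := B)
    (cross := fun p q => cross s(p.1.1, p.2.1) s(q.1.1, q.2.1))
    (fun a b b' => hadj _ _ _) (fun a a' b hx => by
      apply hadj b.1 a.1 a'.1
      rw [Sym2.eq_swap (a := b.1) (b := a.1), Sym2.eq_swap (a := b.1) (b := a'.1)]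
      exact hx) (acyc_of_hz hsymm hZ hAB) (fun _ => 1) (fun _ => 1)
    (fun _ => Nat.one_pos) (fun _ => Nat.one_pos) (by simpa using h)
  refine ⟨σ.map (emb hAB), ptree_of_conn hAB hpl hcard hconn,
    (Equiv.sigmaUnique A (fun _ => Fin 1)).symm.trans
      (f.trans (Equiv.sigmaUnique B (fun _ => Fin 1))), fun a => ?_⟩
  exact mem_map_of_mem (emb hAB) (hf ((Equiv.sigmaUnique A (fun _ => Fin 1)).symm a))

/-- (Z) for all vertex sets from `Geo` and `HC`. -/
theorem hz_of_hc {cross : Sym2 V → Sym2 V → Prop} (hG : Geo cross) (hC : HC cross) :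
    ∀ W : Finset V, HZ cross W := by
  intro W
  refine hz_of_hm hG.symm hG.adj (fun hW p hp => hG.v2 W hW p hp) ?_
  intro F C hF hp hCW hCn hne h1 _ _
  refine hd_of_hc hG hC W F hF hp ⟨C, W \ C, hCn, ?_, disjoint_sdiff, ?_, h1⟩
  · rw [sdiff_nonempty]
    exact fun h => hne (subset_antisymm hCW h)
  · rw [union_sdiff_self_eq_union]
    exact union_eq_right.2 hCW

/-- Integral flows from `Geo` and `HC`. -/
theorem flow_of_hc {cross : Sym2 V → Sym2 V → Prop} (hG : Geo cross) (hC : HC cross)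
    {A B : Finset V} (hAB : Disjoint A B) (hA : A.Nonempty) (hB : B.Nonempty) (r s : V → ℕ)
    (hr : ∀ a ∈ A, 0 < r a) (hs : ∀ b ∈ B, 0 < s b) (h : ∑ a ∈ A, r a = ∑ b ∈ B, s b) :
    ∃ T : Finset (Sym2 V), PTree cross A B T ∧ ∃ n : V → V → ℕ,
      (∀ a ∈ A, ∑ b ∈ B, n a b = r a) ∧ (∀ b ∈ B, ∑ a ∈ A, n a b = s b) ∧
      ∀ a ∈ A, ∀ b ∈ B, n a b ≠ 0 → s(a, b) ∈ T :=
  flow_of_hz hG.symm hG.adj (hz_of_hc hG hC) hAB hA hB r s hr hs h

/-- Prescribed degrees on one side from `Geo` and `HC`. -/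
theorem degrees_of_hc {cross : Sym2 V → Sym2 V → Prop} (hG : Geo cross) (hC : HC cross)
    {A B : Finset V} (hAB : Disjoint A B) (hA : A.Nonempty) (d : V → ℕ)
    (hd : ∀ a ∈ A, 0 < d a) (h : ∑ a ∈ A, d a + 1 = A.card + B.card) :
    ∃ T : Finset (Sym2 V), PTree cross A B T ∧ ∀ a ∈ A, (T.filter fun e => a ∈ e).card = d a :=
  degrees_of_hz hG.symm hG.adj (hz_of_hc hG hC) hAB hA d hd h

/-- A perfect matching inside a plane bipartite spanning tree, from `Geo` and `HC`. -/
theorem matching_of_hc {cross : Sym2 V → Sym2 V → Prop} (hG : Geo cross) (hC : HC cross)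
    {A B : Finset V} (hAB : Disjoint A B) (hA : A.Nonempty) (h : A.card = B.card) :
    ∃ T : Finset (Sym2 V), PTree cross A B T ∧ ∃ f : A ≃ B, ∀ a : A, s(a.1, (f a).1) ∈ T :=
  matching_of_hz hG.symm hG.adj (hz_of_hc hG hC) hAB hA h

/-- Integral flows from `Geo` and `HE`. -/
theorem flow_of_he {cross : Sym2 V → Sym2 V → Prop} (hG : Geo cross) (hE : HE cross)
    {A B : Finset V} (hAB : Disjoint A B) (hA : A.Nonempty) (hB : B.Nonempty) (r s : V → ℕ)
    (hr : ∀ a ∈ A, 0 < r a) (hs : ∀ b ∈ B, 0 < s b) (h : ∑ a ∈ A, r a = ∑ b ∈ B, s b) :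
    ∃ T : Finset (Sym2 V), PTree cross A B T ∧ ∃ n : V → V → ℕ,
      (∀ a ∈ A, ∑ b ∈ B, n a b = r a) ∧ (∀ b ∈ B, ∑ a ∈ A, n a b = s b) ∧
      ∀ a ∈ A, ∀ b ∈ B, n a b ≠ 0 → s(a, b) ∈ T :=
  flow_of_hc hG (hc_of_he hG hE) hAB hA hB r s hr hs h

/-- Prescribed degrees on one side from `Geo` and `HE`. -/
theorem degrees_of_he {cross : Sym2 V → Sym2 V → Prop} (hG : Geo cross) (hE : HE cross)
    {A B : Finset V} (hAB : Disjoint A B) (hA : A.Nonempty) (d : V → ℕ)
    (hd : ∀ a ∈ A, 0 < d a) (h : ∑ a ∈ A, d a + 1 = A.card + B.card) :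
    ∃ T : Finset (Sym2 V), PTree cross A B T ∧ ∀ a ∈ A, (T.filter fun e => a ∈ e).card = d a :=
  degrees_of_hc hG (hc_of_he hG hE) hAB hA d hd h

/-- If `A ∪ B` is the vertex set, `T` is the edge set of a tree. -/
theorem isTree {cross : Sym2 V → Sym2 V → Prop} {A B : Finset V} (hAB : Disjoint A B)
    (hU : A ∪ B = univ) (hA : A.Nonempty) {T : Finset (Sym2 V)} (hT : PTree cross A B T) :
    (SimpleGraph.fromEdgeSet (T : Set (Sym2 V))).IsTree ∧
      (SimpleGraph.fromEdgeSet (T : Set (Sym2 V))).edgeSet = (T : Set (Sym2 V)) := by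
  classical
  have hne : ∀ e ∈ T, ¬ e.IsDiag := by
    intro e he h1
    obtain ⟨a, ha, b, hb, rfl⟩ := hT.sub e he
    have h2 : a = b := h1
    exact disjoint_left.1 hAB ha (h2 ▸ hb)
  have hE : (SimpleGraph.fromEdgeSet (T : Set (Sym2 V))).edgeSet = (T : Set (Sym2 V)) := by
    rw [SimpleGraph.edgeSet_fromEdgeSet]
    ext e
    constructor
    · exact fun h => h.1
    · exact fun h => ⟨h, hne e h⟩
  refine ⟨?_, hE⟩
  rw [SimpleGraph.isTree_iff_connected_and_card]
  constructor
  · obtain ⟨v, _⟩ := hA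
    have : Nonempty V := ⟨v⟩
    refine ⟨fun u w => ?_⟩
    by_contra hcon
    apply hT.conn
    rw [hU]
    refine ⟨univ.filter fun x => (SimpleGraph.fromEdgeSet (T : Set (Sym2 V))).Reachable u x,
      univ.filter fun x => ¬ (SimpleGraph.fromEdgeSet (T : Set (Sym2 V))).Reachable u x,
      ⟨u, mem_filter.2 ⟨mem_univ _, SimpleGraph.Reachable.refl u⟩⟩,
      ⟨w, mem_filter.2 ⟨mem_univ _, hcon⟩⟩, disjoint_filter_filter_not _ _ _,
      filter_union_filter_not_eq _ _, ?_⟩
    intro x hx y hy h1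
    rw [mem_filter] at hx hy
    refine hy.2 (hx.2.trans (SimpleGraph.Adj.reachable ?_))
    rw [SimpleGraph.fromEdgeSet_adj]
    exact ⟨h1, fun h2 => hne _ h1 (by rw [h2]; exact Sym2.mk_isDiag_iff.2 rfl)⟩
  · rw [hE, Nat.card_coe_set_eq, Set.ncard_coe_finset, hT.card, ← card_union_of_disjoint hAB, hU,
      card_univ, Nat.card_eq_fintype_card]

end H4TR
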