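import Pool.Agent.Lib.H24B.B5

/-!
# H4TR, file Gen: plane spanning trees with a flow for generic weights

`Acyc` (H24B): the complexes of the plane subsets of `A ×ˢ B` are acyclic mod 2. For every balanced
positive generic weight vector `x` there is a plane set `σ` of `|α| + |β| - 1` edges with `x` in its
cone, and `σ` is connected (so it is a spanning tree of the complete bipartite graph).
-/

set_option autoImplicit false

namespace H4TR

open Finset H98P H24B

variable {α β : Type*} [Fintype α] [Fintype β] [DecidableEq α] [DecidableEq β]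

/-- Balanced generic vectors near a given balanced vector. -/
theorem exists_x [Nonempty α] (t : α ⊕ β → ℝ) (ht : ∑ a, t (Sum.inl a) = ∑ b, t (Sum.inr b))
    {ε : ℝ} (hε0 : 0 < ε) :
    ∃ x : α ⊕ β → ℝ, (∀ v, |x v - t v| < ε) ∧
      Bal (univ : Finset α) (univ : Finset β) x ∧ GenP (univ : Finset α) (univ : Finset β) x := by
  classical
  obtain ⟨N, hN⟩ : ∃ N : Submodule ℝ (α ⊕ β → ℝ), N = LinearMap.ker dif := ⟨_, rfl⟩
  have hmem : ∀ y : α ⊕ β → ℝ, y ∈ N ↔ dif y = 0 := by
    intro y
    rw [hN, LinearMap.mem_ker]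
  have hfr : Module.finrank ℝ N + 1 = Fintype.card α + Fintype.card β := by
    have h1 := LinearMap.finrank_range_add_finrank_ker (dif (α := α) (β := β))
    rw [Module.finrank_fintype_fun_eq_card, Fintype.card_sum, ← hN] at h1
    have h2 : LinearMap.range (dif (α := α) (β := β)) = ⊤ := by
      rw [LinearMap.range_eq_top]
      intro r
      obtain ⟨a0⟩ := (inferInstance : Nonempty α)
      refine ⟨Sum.elim (fun a => if a = a0 then r else 0) (fun _ => 0), ?_⟩
      rw [dif_apply]
      simp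
    rw [h2, finrank_top, Module.finrank_self] at h1
    omega
  obtain ⟨col, hcol⟩ : ∃ col : α × β → N, ∀ e, (col e : α ⊕ β → ℝ) = vec e :=
    ⟨fun e => ⟨vec e, (hmem _).2 (dif_vec e)⟩, fun e => rfl⟩
  have hU : IsOpen {b : N | ∀ v, |(b : α ⊕ β → ℝ) v - t v| < ε} := by
    rw [Set.ofPred_forall]
    refine isOpen_iInter_of_finite fun v => ?_
    exact isOpen_lt (continuous_abs.comp
      (((continuous_apply v).comp continuous_subtype_val).sub continuous_const)) continuous_const
  have hne : {b : N | ∀ v, |(b : α ⊕ β → ℝ) v - t v| < ε}.Nonempty := by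
    refine ⟨⟨t, (hmem _).2 ?_⟩, fun v => ?_⟩
    · rw [dif_apply, ht, sub_self]
    · show |t v - t v| < ε
      rw [sub_self, abs_zero]
      exact hε0
  obtain ⟨b, hb, hgen⟩ := exists_gen col _ hU hne
  refine ⟨b, hb, ⟨fun a ha => absurd (Finset.mem_univ a) ha, fun b hb => absurd (Finset.mem_univ b) hb,
    ?_⟩, ?_⟩
  · have h1 := (hmem _).1 b.2
    rw [dif_apply] at h1
    linarith
  · intro σ _ hc w hw
    refine hgen σ ?_ w (Subtype.ext ?_)
    · rw [Finset.card_univ, Finset.card_univ] at hc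
      omega
    · rw [← hw, AddSubmonoidClass.coe_finsetSum]
      refine Finset.sum_congr rfl fun e _ => ?_
      rw [← hcol e]
      rfl

/-- A plane set of `|α| + |β| - 1` edges whose cone contains the generic weight vector. -/
theorem exists_sigma [Nonempty α] [Nonempty β] {cross : α × β → α × β → Prop}
    (hA : ∀ a b b', ¬ cross (a, b) (a, b')) (hB : ∀ a a' b, ¬ cross (a, b) (a', b))
    (hac : Acyc cross) {x : α ⊕ β → ℝ} (hpos : ∀ v, 0 < x v)
    (hbal : Bal (univ : Finset α) (univ : Finset β) x)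
    (hgen : GenP (univ : Finset α) (univ : Finset β) x) :
    ∃ σ : Finset (α × β), Plane cross σ ∧ σ.card + 1 = Fintype.card α + Fintype.card β ∧
      InCone vec σ x := by
  classical
  obtain ⟨c, hs, ho, hr⟩ := chains hA hB hac
  have h1 : 0 < Fintype.card α := Fintype.card_pos
  have h2 : 0 < Fintype.card β := Fintype.card_pos
  have hodd := count hs ho hr (Fintype.card α + Fintype.card β - 1) univ univ
    Finset.univ_nonempty Finset.univ_nonempty (by rw [Finset.card_univ, Finset.card_univ]; omega) x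
    ⟨fun a _ => hpos _, fun b _ => hpos _⟩ hbal hgen
  have hex : ∃ σ, c univ univ σ * door vec (Fintype.card α + Fintype.card β - 1) x σ ≠ 0 := by
    by_contra hcon
    push Not at hcon
    rw [Finset.sum_eq_zero fun σ _ => hcon σ] at hodd
    exact zero_ne_one hodd
  obtain ⟨σ, hσ⟩ := hex
  have hd : door vec (Fintype.card α + Fintype.card β - 1) x σ ≠ 0 := right_ne_zero_of_mul hσ
  have hc : c univ univ σ ≠ 0 := left_ne_zero_of_mul hσ
  have hcone : InCone vec σ x := by
    by_contra hcon
    exact hd (door_zero hcon)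
  obtain ⟨_, _, _, hpl, hcard⟩ := hs _ _ _ hc
  rw [Finset.card_univ, Finset.card_univ] at hcard
  exact ⟨σ, hpl, hcard, hcone⟩

/-- `σ` is connected as a graph on `α ⊕ β`: every proper nonempty set of vertices is left by an
edge of `σ`. -/
def Conn (σ : Finset (α × β)) : Prop :=
  ∀ (A : Finset α) (B : Finset β), (A.Nonempty ∨ B.Nonempty) → (A ≠ univ ∨ B ≠ univ) →
    ∃ e ∈ σ, ¬ (e.1 ∈ A ↔ e.2 ∈ B)

/-- A set of edges with a generic positive vector in its cone is connected. -/
theorem conn {x : α ⊕ β → ℝ} (hpos : ∀ v, 0 < x v)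
    (hgen : GenP (univ : Finset α) (univ : Finset β) x) {σ : Finset (α × β)}
    (hc : InCone vec σ x) : Conn σ := by
  classical
  intro A B hne hnu
  by_contra hcon
  push Not at hcon
  obtain ⟨w, hw0, hw⟩ := hc
  have hval : ∀ v, x v = ∑ e ∈ σ, w e * vec e v := by
    intro v
    rw [← hw, comb_apply]
  -- the sums over a closed set of vertices agree
  have hsum : ∀ (C : Finset α) (D : Finset β), (∀ e ∈ σ, (e.1 ∈ C ↔ e.2 ∈ D)) →
      ∑ a ∈ C, x (Sum.inl a) = ∑ b ∈ D, x (Sum.inr b) := by
    intro C D hCD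
    simp only [hval]
    rw [Finset.sum_comm, Finset.sum_comm (s := D)]
    refine Finset.sum_congr rfl fun e he => ?_
    rw [← Finset.mul_sum, ← Finset.mul_sum]
    simp only [vec_inl, vec_inr]
    rw [Finset.sum_ite_eq' C e.1, Finset.sum_ite_eq' D e.2]
    by_cases h1 : e.1 ∈ C
    · rw [if_pos h1, if_pos ((hCD e he).1 h1)]
    · rw [if_neg h1, if_neg fun h2 => h1 ((hCD e he).2 h2)]
  have hcompl : ∀ e ∈ σ, (e.1 ∈ Aᶜ ↔ e.2 ∈ Bᶜ) := by
    intro e he
    rw [Finset.mem_compl, Finset.mem_compl, hcon e he]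
  have hs1 := hsum A B hcon
  have hs2 := hsum Aᶜ Bᶜ hcompl
  -- both sides of both parts are nonempty
  have hpair : ∀ (C : Finset α) (D : Finset β), (∑ a ∈ C, x (Sum.inl a) = ∑ b ∈ D, x (Sum.inr b)) →
      (C.Nonempty ∨ D.Nonempty) → C.Nonempty ∧ D.Nonempty := by
    intro C D h1 h2
    rcases C.eq_empty_or_nonempty with hC | hC
    · rcases h2 with h2 | h2
      · rw [hC] at h2
        exact absurd rfl h2.ne_empty
      · exfalso
        rw [hC, Finset.sum_empty] at h1
        exact absurd h1 (ne_of_lt (Finset.sum_pos (fun b _ => hpos _) h2))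
    · refine ⟨hC, ?_⟩
      rcases D.eq_empty_or_nonempty with hD | hD
      · exfalso
        rw [hD, Finset.sum_empty] at h1
        exact absurd h1.symm (ne_of_lt (Finset.sum_pos (fun b _ => hpos _) hC))
      · exact hD
  obtain ⟨hA1, hB1⟩ := hpair A B hs1 hne
  obtain ⟨hA2, hB2⟩ := hpair Aᶜ Bᶜ hs2 (by
    rcases hnu with h | h
    · left
      rw [Finset.nonempty_iff_ne_empty, Ne, Finset.compl_eq_empty_iff]
      exact h
    · right
      rw [Finset.nonempty_iff_ne_empty, Ne, Finset.compl_eq_empty_iff]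
      exact h)
  -- the two restrictions
  obtain ⟨r, hr⟩ : ∃ r : Finset α → Finset β → α ⊕ β → ℝ, r = fun C D =>
      Sum.elim (fun a => if a ∈ C then x (Sum.inl a) else 0)
        (fun b => if b ∈ D then x (Sum.inr b) else 0) := ⟨_, rfl⟩
  have hrl : ∀ C D a, r C D (Sum.inl a) = if a ∈ C then x (Sum.inl a) else 0 := by
    intro C D a
    rw [hr]
    rfl
  have hrr : ∀ C D b, r C D (Sum.inr b) = if b ∈ D then x (Sum.inr b) else 0 := by
    intro C D b
    rw [hr]
    rfl
  have hbal : ∀ (C : Finset α) (D : Finset β), (∑ a ∈ C, x (Sum.inl a) = ∑ b ∈ D, x (Sum.inr b)) →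
      Bal C D (r C D) := by
    intro C D h1
    refine ⟨fun a ha => ?_, fun b hb => ?_, ?_⟩
    · rw [hrl, if_neg ha]
    · rw [hrr, if_neg hb]
    · refine Eq.trans ?_ (h1.trans ?_)
      · exact Finset.sum_congr rfl fun a ha => by rw [hrl, if_pos ha]
      · exact Finset.sum_congr rfl fun b hb => by rw [hrr, if_pos hb]
  obtain ⟨σ1, _, hc1, w1, hw1⟩ := comb_bal _ A B hA1 hB1 rfl _ (hbal A B hs1)
  obtain ⟨σ2, _, hc2, w2, hw2⟩ := comb_bal _ Aᶜ Bᶜ hA2 hB2 rfl _ (hbal Aᶜ Bᶜ hs2)
  have hcu := Finset.card_union_le σ1 σ2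
  have hcA := Finset.card_add_card_compl A
  have hcB := Finset.card_add_card_compl B
  refine hgen (σ1 ∪ σ2) (fun e _ => Finset.mem_product.2 ⟨Finset.mem_univ _, Finset.mem_univ _⟩) ?_
    (fun e => (if e ∈ σ1 then w1 e else 0) + if e ∈ σ2 then w2 e else 0) ?_
  · rw [Finset.card_univ, Finset.card_univ]
    omega
  · have h1 : ∑ e ∈ σ1 ∪ σ2, (if e ∈ σ1 then w1 e else 0) • (vec e : α ⊕ β → ℝ) = r A B := by
      rw [← hw1]
      symm
      refine (Finset.sum_congr rfl fun e he => ?_).trans
        (Finset.sum_subset Finset.subset_union_left fun e _ he => ?_)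
      · rw [if_pos he]
      · rw [if_neg he, zero_smul]
    have h2 : ∑ e ∈ σ1 ∪ σ2, (if e ∈ σ2 then w2 e else 0) • (vec e : α ⊕ β → ℝ) = r Aᶜ Bᶜ := by
      rw [← hw2]
      symm
      refine (Finset.sum_congr rfl fun e he => ?_).trans
        (Finset.sum_subset Finset.subset_union_right fun e _ he => ?_)
      · rw [if_pos he]
      · rw [if_neg he, zero_smul]
    simp only [add_smul]
    rw [Finset.sum_add_distrib, h1, h2]
    funext v
    rcases v with a | b
    · show r A B (Sum.inl a) + r Aᶜ Bᶜ (Sum.inl a) = x (Sum.inl a)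
      rw [hrl, hrl]
      by_cases h3 : a ∈ A
      · rw [if_pos h3, if_neg (by rw [Finset.mem_compl]; exact fun h => h h3), add_zero]
      · rw [if_neg h3, if_pos (Finset.mem_compl.2 h3), zero_add]
    · show r A B (Sum.inr b) + r Aᶜ Bᶜ (Sum.inr b) = x (Sum.inr b)
      rw [hrr, hrr]
      by_cases h3 : b ∈ B
      · rw [if_pos h3, if_neg (by rw [Finset.mem_compl]; exact fun h => h h3), add_zero]
      · rw [if_neg h3, if_pos (Finset.mem_compl.2 h3), zero_add]

end H4TR
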