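import Pool.Agent.Lib.H4TR.Gen

/-!
# H4TR, file Hall: integral flows in a plane bipartite spanning tree

`transport`: for positive integers `r a`, `s b` with equal sums there is a connected plane set `σ` of
`|α| + |β| - 1` edges of the complete bipartite graph which carries a flow of nonnegative integers with
the sums `r a` and `s b`; the flow is given by a bijection between `r a` copies of each `a` and `s b`
copies of each `b`.
-/

set_option autoImplicit false

namespace H4TR

open Finset H98P H24B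

variable {α β : Type*} [Fintype α] [Fintype β] [DecidableEq α] [DecidableEq β]

/-- HALL with copies. -/
theorem hall_copies (r : α → ℕ) (s : β → ℕ) (P : Finset (α × β)) (w : α × β → ℝ)
    (hw : ∀ e ∈ P, 0 ≤ w e) (x : α ⊕ β → ℝ)
    (hx1 : ∀ a, |x (Sum.inl a) - r a| < 1 / (Fintype.card α + Fintype.card β + 1))
    (hx2 : ∀ b, |x (Sum.inr b) - s b| < 1 / (Fintype.card α + Fintype.card β + 1))
    (hs : ∑ e ∈ P, w e • vec e = x) :
    ∃ f : (Σ a : α, Fin (r a)) → (Σ b : β, Fin (s b)), Function.Injective f ∧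
      ∀ p, (p.1, (f p).1) ∈ P := by
  classical
  obtain ⟨t, ht⟩ : ∃ t : (Σ a : α, Fin (r a)) → Finset (Σ b : β, Fin (s b)),
      t = fun p => univ.filter fun q => (p.1, q.1) ∈ P := ⟨_, rfl⟩
  obtain ⟨ε, hε⟩ : ∃ ε : ℝ, ε = 1 / (Fintype.card α + Fintype.card β + 1) := ⟨_, rfl⟩
  rw [← hε] at hx1 hx2
  have hkey : ∀ T : Finset (Σ a : α, Fin (r a)), T.card ≤ (T.biUnion t).card := by
    intro T
    obtain ⟨A, hA⟩ : ∃ A : Finset α, A = T.image Sigma.fst := ⟨_, rfl⟩
    obtain ⟨N, hN⟩ : ∃ N : Finset β, N = univ.filter fun b => ∃ a ∈ A, (a, b) ∈ P := ⟨_, rfl⟩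
    have hle : ∑ a ∈ A, x (Sum.inl a) ≤ ∑ b ∈ N, x (Sum.inr b) := by
      rw [← hs]
      simp only [comb_apply]
      rw [Finset.sum_comm, Finset.sum_comm (s := N)]
      refine Finset.sum_le_sum fun e he => ?_
      rw [← Finset.mul_sum, ← Finset.mul_sum]
      refine mul_le_mul_of_nonneg_left ?_ (hw e he)
      simp only [vec_inl, vec_inr]
      rw [Finset.sum_ite_eq' A e.1, Finset.sum_ite_eq' N e.2]
      by_cases h1 : e.1 ∈ A
      · rw [if_pos h1, if_pos]
        rw [hN]
        exact Finset.mem_filter.2 ⟨Finset.mem_univ _, e.1, h1, he⟩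
      · rw [if_neg h1]
        split_ifs <;> norm_num
    have h1 : ((∑ a ∈ A, r a : ℕ) : ℝ) - A.card * ε ≤ ∑ a ∈ A, x (Sum.inl a) := by
      have h2 : ∑ a ∈ A, ((r a : ℝ) - ε) ≤ ∑ a ∈ A, x (Sum.inl a) := by
        refine Finset.sum_le_sum fun a _ => ?_
        have := (abs_lt.1 (hx1 a)).1
        linarith
      rw [Finset.sum_sub_distrib, Finset.sum_const, nsmul_eq_mul] at h2
      rw [Nat.cast_sum]
      exact h2
    have h2 : ∑ b ∈ N, x (Sum.inr b) ≤ ((∑ b ∈ N, s b : ℕ) : ℝ) + N.card * ε := by
      have h2 : ∑ b ∈ N, x (Sum.inr b) ≤ ∑ b ∈ N, ((s b : ℝ) + ε) := by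
        refine Finset.sum_le_sum fun b _ => ?_
        have := (abs_lt.1 (hx2 b)).2
        linarith
      rw [Finset.sum_add_distrib, Finset.sum_const, nsmul_eq_mul] at h2
      rw [Nat.cast_sum]
      exact h2
    have hAn : (A.card : ℝ) ≤ Fintype.card α := by exact_mod_cast Finset.card_le_univ A
    have hNn : (N.card : ℝ) ≤ Fintype.card β := by exact_mod_cast Finset.card_le_univ N
    have hp : (0 : ℝ) < Fintype.card α + Fintype.card β + 1 := by positivity
    have hε0 : 0 < ε := by
      rw [hε]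
      positivity
    have hεn : ε * (Fintype.card α + Fintype.card β) < 1 := by
      rw [hε, one_div, inv_mul_lt_iff₀ hp]
      linarith
    have h3 : ((∑ a ∈ A, r a : ℕ) : ℝ) < ((∑ b ∈ N, s b : ℕ) : ℝ) + 1 := by
      have h4 : ε * (A.card + N.card) ≤ ε * (Fintype.card α + Fintype.card β) :=
        mul_le_mul_of_nonneg_left (by linarith) hε0.le
      have h5 := h1.trans (hle.trans h2)
      nlinarith [h4, h5]
    have h4 : ∑ a ∈ A, r a ≤ ∑ b ∈ N, s b := by
      have h5 : (∑ a ∈ A, r a) < (∑ b ∈ N, s b) + 1 := by exact_mod_cast h3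
      exact Nat.lt_succ_iff.1 h5
    -- the copies
    have h5 : T.card ≤ ∑ a ∈ A, r a := by
      have h6 : T ⊆ A.sigma fun a => (univ : Finset (Fin (r a))) := by
        intro p hp
        rw [Finset.mem_sigma]
        refine ⟨?_, Finset.mem_univ _⟩
        rw [hA]
        exact Finset.mem_image_of_mem _ hp
      refine (Finset.card_le_card h6).trans ?_
      rw [Finset.card_sigma]
      simp
    have h6 : ∑ b ∈ N, s b ≤ (T.biUnion t).card := by
      have h7 : (N.sigma fun b => (univ : Finset (Fin (s b)))) ⊆ T.biUnion t := by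
        intro q hq
        rw [Finset.mem_sigma] at hq
        have h8 := hq.1
        rw [hN, Finset.mem_filter] at h8
        obtain ⟨_, a, ha, hab⟩ := h8
        rw [hA, Finset.mem_image] at ha
        obtain ⟨p, hp, rfl⟩ := ha
        rw [Finset.mem_biUnion]
        refine ⟨p, hp, ?_⟩
        rw [ht]
        exact Finset.mem_filter.2 ⟨Finset.mem_univ _, hab⟩
      refine le_trans ?_ (Finset.card_le_card h7)
      rw [Finset.card_sigma]
      simp
    exact h5.trans (h4.trans h6)
  obtain ⟨f, hf1, hf2⟩ := (Finset.all_card_le_biUnion_card_iff_exists_injective t).1 hkey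
  refine ⟨f, hf1, fun v => ?_⟩
  have := hf2 v
  rw [ht] at this
  exact (Finset.mem_filter.1 this).2

/-- PLANE TRANSPORT. For positive integers `r a`, `s b` with equal sums there is a connected plane set
`σ` of `|α| + |β| - 1` edges and a bijection of the `r a` copies of the `a` to the `s b` copies of the
`b` along edges of `σ`. -/
theorem transport {cross : α × β → α × β → Prop}
    (hA : ∀ a b b', ¬ cross (a, b) (a, b')) (hB : ∀ a a' b, ¬ cross (a, b) (a', b))
    (hac : Acyc cross) [Nonempty α] [Nonempty β] (r : α → ℕ) (s : β → ℕ)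
    (hr : ∀ a, 0 < r a) (hs : ∀ b, 0 < s b) (h : ∑ a, r a = ∑ b, s b) :
    ∃ σ : Finset (α × β), Plane cross σ ∧ σ.card + 1 = Fintype.card α + Fintype.card β ∧
      Conn σ ∧ ∃ f : (Σ a : α, Fin (r a)) ≃ (Σ b : β, Fin (s b)), ∀ p, (p.1, (f p).1) ∈ σ := by
  classical
  have hε0 : (0 : ℝ) < 1 / (Fintype.card α + Fintype.card β + 1) := by positivity
  have hε1 : (1 : ℝ) / (Fintype.card α + Fintype.card β + 1) ≤ 1 := by
    rw [div_le_one (by positivity)]
    have : (0 : ℝ) ≤ Fintype.card α + Fintype.card β := by positivity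
    linarith
  obtain ⟨x, hx, hbal, hgen⟩ := exists_x (α := α) (β := β)
    (Sum.elim (fun a => (r a : ℝ)) (fun b => (s b : ℝ))) (by
      simp only [Sum.elim_inl, Sum.elim_inr]
      exact_mod_cast h) hε0
  have hx1 : ∀ a, |x (Sum.inl a) - r a| < 1 / (Fintype.card α + Fintype.card β + 1) :=
    fun a => hx (Sum.inl a)
  have hx2 : ∀ b, |x (Sum.inr b) - s b| < 1 / (Fintype.card α + Fintype.card β + 1) :=
    fun b => hx (Sum.inr b)
  have hpos : ∀ v, 0 < x v := by
    intro v
    rcases v with a | b
    · have h1 := (abs_lt.1 (hx1 a)).1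
      have h2 : (1 : ℝ) ≤ r a := by exact_mod_cast hr a
      linarith
    · have h1 := (abs_lt.1 (hx2 b)).1
      have h2 : (1 : ℝ) ≤ s b := by exact_mod_cast hs b
      linarith
  obtain ⟨σ, hpl, hcard, hcone⟩ := exists_sigma hA hB hac hpos hbal hgen
  have hconn := conn hpos hgen hcone
  obtain ⟨w, hw0, hw⟩ := hcone
  obtain ⟨f, hf1, hf2⟩ := hall_copies r s σ w hw0 x hx1 hx2 hw
  have hbij : Function.Bijective f := by
    rw [Fintype.bijective_iff_injective_and_card]
    refine ⟨hf1, ?_⟩
    rw [Fintype.card_sigma, Fintype.card_sigma]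
    simp only [Fintype.card_fin]
    exact h
  exact ⟨σ, hpl, hcard, hconn, Equiv.ofBijective f hbij, hf2⟩

/-- ONE-SIDED DEGREES. For positive integers `d a` with `∑ (d a - 1) = |β| - 1` there is a connected
plane set of `|α| + |β| - 1` edges (a plane spanning tree) with exactly `d a` edges at each `a`. -/
theorem one_sided {cross : α × β → α × β → Prop}
    (hA : ∀ a b b', ¬ cross (a, b) (a, b')) (hB : ∀ a a' b, ¬ cross (a, b) (a', b))
    (hac : Acyc cross) [Nonempty α] (d : α → ℕ) (hd : ∀ a, 0 < d a)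
    (h : ∑ a, d a + 1 = Fintype.card α + Fintype.card β) :
    ∃ σ : Finset (α × β), Plane cross σ ∧ σ.card + 1 = Fintype.card α + Fintype.card β ∧
      Conn σ ∧ ∀ a, (σ.filter fun e => e.1 = a).card = d a := by
  classical
  have hα : 0 < Fintype.card α := Fintype.card_pos
  have hge : Fintype.card α ≤ ∑ a, d a := by
    have h1 : ∑ _a : α, 1 ≤ ∑ a, d a := Finset.sum_le_sum fun a _ => hd a
    simpa using h1
  have hβ : 0 < Fintype.card β := by omega
  have : Nonempty β := Fintype.card_pos_iff.1 hβ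
  have hsum : ∑ a : α, (Fintype.card α * (d a - 1) + 1) = ∑ _b : β, Fintype.card α := by
    rw [Finset.sum_add_distrib, ← Finset.mul_sum, Finset.sum_const, Finset.sum_const, smul_eq_mul,
      smul_eq_mul, Finset.card_univ, Finset.card_univ, mul_one]
    have h1 : ∑ a : α, (d a - 1) + Fintype.card α = ∑ a, d a := by
      have h2 : ∑ a : α, (d a - 1) + ∑ _a : α, 1 = ∑ a, d a := by
        rw [← Finset.sum_add_distrib]
        refine Finset.sum_congr rfl fun a _ => ?_
        have := hd a
        omega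
      simpa using h2
    have h3 : ∑ a : α, (d a - 1) + 1 = Fintype.card β := by omega
    rw [← h3]
    ring
  obtain ⟨σ, hpl, hcard, hconn, f, hf⟩ := transport hA hB hac
    (fun a => Fintype.card α * (d a - 1) + 1) (fun _ => Fintype.card α)
    (fun a => Nat.succ_pos _) (fun _ => hα) hsum
  refine ⟨σ, hpl, hcard, hconn, ?_⟩
  -- at least `d a` edges
  have hlow : ∀ a, d a ≤ (σ.filter fun e => e.1 = a).card := by
    intro a
    by_contra hcon
    push Not at hcon
    obtain ⟨N, hN⟩ : ∃ N : Finset β, N = (σ.filter fun e => e.1 = a).image Prod.snd := ⟨_, rfl⟩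
    have h1 : N.card ≤ (σ.filter fun e => e.1 = a).card := by
      rw [hN]
      exact Finset.card_image_le
    obtain ⟨g, hg⟩ : ∃ g : Fin (Fintype.card α * (d a - 1) + 1) →
        (Σ _b : β, Fin (Fintype.card α)), g = fun i => f ⟨a, i⟩ := ⟨_, rfl⟩
    have hginj : Function.Injective g := by
      intro i j hij
      rw [hg] at hij
      have h2 := f.injective hij
      simpa using h2
    have h2 : (univ.image g).card = Fintype.card α * (d a - 1) + 1 := by
      rw [Finset.card_image_of_injective _ hginj, Finset.card_univ, Fintype.card_fin]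
    have h3 : univ.image g ⊆ N.sigma fun _ => (univ : Finset (Fin (Fintype.card α))) := by
      intro q hq
      obtain ⟨i, _, rfl⟩ := Finset.mem_image.1 hq
      rw [Finset.mem_sigma]
      refine ⟨?_, Finset.mem_univ _⟩
      rw [hN, Finset.mem_image]
      refine ⟨(a, (g i).1), Finset.mem_filter.2 ⟨?_, rfl⟩, rfl⟩
      rw [hg]
      exact hf ⟨a, i⟩
    have h4 := Finset.card_le_card h3
    rw [h2, Finset.card_sigma] at h4
    simp only [Finset.card_univ, Fintype.card_fin, Finset.sum_const, smul_eq_mul] at h4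
    have h5 : N.card ≤ d a - 1 := by omega
    have h6 : N.card * Fintype.card α ≤ (d a - 1) * Fintype.card α := Nat.mul_le_mul_right _ h5
    have h7 : (d a - 1) * Fintype.card α = Fintype.card α * (d a - 1) := mul_comm _ _
    omega
  have htot : ∑ a, (σ.filter fun e => e.1 = a).card = σ.card :=
    (Finset.card_eq_sum_card_fiberwise (f := Prod.fst) (t := univ)
      fun e _ => Finset.mem_coe.2 (Finset.mem_univ _)).symm
  intro a
  have h1 : ∑ a, d a = ∑ a, (σ.filter fun e => e.1 = a).card := by
    rw [htot]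
    omega
  exact ((Finset.sum_eq_sum_iff_of_le fun a _ => hlow a).1 h1 a (Finset.mem_univ a)).symm

end H4TR
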